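import Pool.Agent.Lib.helper19.PWPack

set_option autoImplicit false

namespace Pool.Agent.Results.MP_5eb27c_an.Yes

open Set MeasureTheory Pool.Agent.Lib.helper19.PWDiv Pool.Agent.Lib.helper19.PWPack Topology Filter
open scoped Pointwise ENNReal

section aux
variable {G : Type*} [Group G] [TopologicalSpace G] [IsTopologicalGroup G] [T2Space G]
  [LocallyCompactSpace G] [MeasurableSpace G] [BorelSpace G] (μ : Measure G) [μ.IsHaarMeasure]
  [μ.Regular]

omit [T2Space G] in
lemma right_scale (v : G) : ∃ c : NNReal, ∀ S, μ ((· * v) ⁻¹' S) = c * μ S := by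
  have : (μ.map (· * v)).Regular := Measure.Regular.map (Homeomorph.mulRight v)
  have h := Measure.isMulLeftInvariant_eq_smul_of_regular (μ.map (· * v)) μ
  refine ⟨Measure.haarScalarFactor (μ.map (· * v)) μ, fun S => ?_⟩
  have h2 := (Homeomorph.mulRight v).toMeasurableEquiv.map_apply (μ := μ) S
  have h3 : μ.map (· * v) S = μ ((· * v) ⁻¹' S) := h2
  rw [← h3]
  conv_lhs => rw [h]
  rfl

omit [T2Space G] in
lemma right_bound {V : Set G} (hV : IsCompact V) :
    ∃ C : ℝ≥0∞, C ≠ ⊤ ∧ ∀ v ∈ V, ∀ S, μ ((· * v) ⁻¹' S) ≤ C * μ S := by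
  obtain ⟨Y, hY, hY1⟩ := exists_compact_mem_nhds (1 : G)
  have hpos : μ Y ≠ 0 := (Measure.measure_pos_of_mem_nhds μ hY1).ne'
  refine ⟨μ (Y * V⁻¹) / μ Y, (ENNReal.div_lt_top (hY.mul hV.inv).measure_lt_top.ne hpos).ne,
    fun v hv S => ?_⟩
  obtain ⟨c, hc⟩ := right_scale μ v
  rw [hc]
  gcongr
  rw [ENNReal.le_div_iff_mul_le (Or.inl hpos) (Or.inl hY.measure_lt_top.ne), ← hc]
  exact measure_mono fun x hx => ⟨x * v, hx, v⁻¹, by simpa using hv, by simp⟩

omit [LocallyCompactSpace G] [T2Space G] [μ.Regular] in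
lemma fin_cover {O F W : Set G} (hO : μ O ≠ ⊤) (hW : IsOpen W) (h1 : (1 : G) ∈ W)
    (hF : ∀ x ∈ F, ∀ ω ∈ W, x * ω ∈ O) :
    ∃ s : Finset G, ∀ x ∈ F, ∃ y ∈ s, y⁻¹ * x ∈ W := by
  classical
  obtain ⟨V, hV, hV'⟩ := exists_nhds_split_inv (hW.mem_nhds h1)
  obtain ⟨Z, hZs, hZo, hZ1⟩ := mem_nhds_iff.1 (inter_mem hV (hW.mem_nhds h1))
  have hpos : μ Z ≠ 0 := (hZo.measure_pos μ ⟨1, hZ1⟩).ne'
  by_contra hcon
  push Not at hcon
  have key : ∀ n : ℕ, ∃ s : Finset G, s.card = n ∧ (∀ x ∈ s, x ∈ F) ∧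
      (s : Set G).PairwiseDisjoint fun x => (x⁻¹ * ·) ⁻¹' Z := by
    intro n
    induction n with
    | zero => exact ⟨∅, rfl, by simp, by simp⟩
    | succ n ih =>
      obtain ⟨s, h1', h2, h3⟩ := ih
      obtain ⟨x, hx, hxs⟩ := hcon s
      have hx' : x ∉ s := fun h => hxs x h (by simpa using h1)
      refine ⟨insert x s, by rw [Finset.card_insert_of_notMem hx', h1'], ?_, ?_⟩
      · intro y hy
        rcases Finset.mem_insert.1 hy with rfl | hy
        · exact hx
        · exact h2 y hy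
      · rw [Finset.coe_insert]
        refine h3.insert fun y hy _ => disjoint_left.2 fun z hz1 hz2 => hxs y hy ?_
        have := hV' _ (hZs hz2).1 _ (hZs hz1).1
        simpa [div_eq_mul_inv, mul_assoc] using this
  obtain ⟨n, hn⟩ := ENNReal.exists_nat_mul_gt hpos hO
  obtain ⟨s, h1', h2, h3⟩ := key n
  have e := measure_biUnion_finset (μ := μ) h3
    (fun x _ => measurable_const_mul x⁻¹ hZo.measurableSet)
  simp only [measure_preimage_mul, Finset.sum_const, h1', nsmul_eq_mul] at e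
  refine absurd hn (not_lt.2 ?_)
  rw [← e]
  refine measure_mono (iUnion₂_subset fun x hx z hz => ?_)
  simpa using hF x (h2 x hx) _ (hZs hz).2

lemma cover {E : Set G} (hE : μ E = 0) (ε : ℕ → ℝ≥0∞) (hε : ∀ j, 0 < ε j) :
    ∃ K : ℕ → Set G, (∀ j, IsCompact (K j)) ∧ E ⊆ ⋃ j, K j ∧ ∀ j, μ (K j) < ε j := by
  classical
  obtain ⟨O, hEO, hO, hμO⟩ := E.exists_isOpen_lt_of_lt (μ := μ) (ε 0) (by rw [hE]; exact hε 0)
  have hOt : μ O ≠ ⊤ := hμO.ne_top
  have h1 : ∀ k : ℕ, ∃ L ⊆ O, IsCompact L ∧ μ (O \ L) < (k : ℝ≥0∞)⁻¹ := fun k =>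
    hO.measurableSet.exists_isCompact_sdiff_lt hOt (by simp)
  choose L hLO hL hLμ using h1
  have h2 : ∀ k, ∃ Z ∈ 𝓝 (1 : G), IsCompact Z ∧ L k * Z ⊆ O := by
    intro k
    obtain ⟨W, hW, hW'⟩ := compact_open_separated_mul_right (hL k) hO (hLO k)
    obtain ⟨Z, hZ, hZW, hZc⟩ := local_compact_nhds hW
    exact ⟨Z, hZ, hZc, (mul_subset_mul_left hZW).trans hW'⟩
  choose Z hZ1 hZc hZ using h2
  let W : ℕ → Set G := fun k => ⋂ i ∈ Finset.range (k + 1), Z i
  have hW1 : ∀ k, W k ∈ 𝓝 (1 : G) := fun k => (biInter_finset_mem _).2 fun i _ => hZ1 i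
  have hWcl : ∀ k, IsClosed (W k) := fun k => isClosed_biInter fun i _ => (hZc i).isClosed
  have hWZ : ∀ k, W k ⊆ Z k := fun k => biInter_subset_of_mem (by simp)
  have hWc : ∀ k, IsCompact (W k) := fun k => (hZc k).of_isClosed_subset (hWcl k) (hWZ k)
  have hWa : Antitone W := fun i j hij => biInter_subset_biInter_left
    (fun k hk => by simp at hk ⊢; omega)
  have h0 : μ (O \ ⋃ k, L k) = 0 := by
    refine le_antisymm (ge_of_tendsto' ENNReal.tendsto_inv_nat_nhds_zero fun k => ?_) zero_le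
    exact (measure_mono (sdiff_subset_sdiff_right (subset_iUnion L k))).trans (hLμ k).le
  let P : Set G := {x | ∃ B, IsOpen B ∧ x ∈ B ∧ μ (B \ O) = 0}
  have hP : IsOpen P := isOpen_iff_forall_mem_open.2 fun x ⟨B, h1, h2, h3⟩ =>
    ⟨B, fun y hy => ⟨B, h1, hy, h3⟩, h1, h2⟩
  have hOP : O ⊆ P := fun x hx => ⟨O, hO, hx, by simp⟩
  have hμP : μ P ≤ μ O := by
    rw [hP.measure_eq_iSup_isCompact]
    refine iSup_le fun K => iSup_le fun hKP => iSup_le fun hK => ?_
    have : μ (K \ O) = 0 := by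
      refine (hK.diff hO).measure_zero_of_nhdsWithin fun a ha => ?_
      obtain ⟨B, h1, h2, h3⟩ := hKP ha.1
      refine ⟨B \ O, mem_nhdsWithin.2 ⟨B, h1, h2, fun y hy => ⟨hy.1, hy.2.2⟩⟩, h3⟩
    calc μ K ≤ μ (K ∩ O) + μ (K \ O) := measure_le_inter_add_sdiff _ _ _
      _ ≤ μ O := by rw [this, add_zero]; exact measure_mono inter_subset_right
  have hPN : ∀ x ∈ P, ∀ n ∈ ⋂ k, W k, x * n ∈ P := by
    rintro x ⟨B, h1, h2, h3⟩ n hn
    refine ⟨(· * n⁻¹) ⁻¹' B, h1.preimage (by fun_prop), by simpa using h2, ?_⟩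
    obtain ⟨c, hc⟩ := right_scale μ n⁻¹
    have : μ (B \ ⋃ k, L k) = 0 := measure_mono_null
      (t := (B \ O) ∪ (O \ ⋃ k, L k))
      (fun y hy => by by_cases h : y ∈ O; exacts [Or.inr ⟨h, hy.2⟩, Or.inl ⟨hy.1, h⟩])
      (measure_union_null h3 h0)
    refine measure_mono_null (t := (· * n⁻¹) ⁻¹' (B \ ⋃ k, L k)) ?_ (by rw [hc, this, mul_zero])
    rintro y ⟨hy1, hy2⟩
    refine ⟨hy1, fun h => hy2 ?_⟩
    obtain ⟨k, hk⟩ := mem_iUnion.1 h
    exact hZ k ⟨_, hk, n, hWZ k (mem_iInter.1 hn k), by simp⟩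
  let F : ℕ → Set G := fun k => {x | ∀ ω ∈ interior (W k), x * ω ∈ P}
  have hFm : Monotone F := fun i j hij x hx ω hω => hx ω (interior_mono (hWa hij) hω)
  have hFP : ∀ k, F k ⊆ P := fun k x hx => by
    simpa using hx 1 (mem_interior_iff_mem_nhds.2 (hW1 k))
  have hFcl : ∀ k, IsClosed (F k) := by
    intro k
    refine isClosed_of_closure_subset fun x hx ω hω => ?_
    have : (fun y => y⁻¹ * x * ω) ⁻¹' interior (W k) ∈ 𝓝 x :=
      (isOpen_interior.preimage (by fun_prop)).mem_nhds (by simpa using hω)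
    obtain ⟨y, hy1, hy2⟩ := mem_closure_iff_nhds.1 hx _ this
    simpa [mul_assoc] using hy2 _ hy1
  have hPt : μ P ≠ ⊤ := (hμP.trans_lt hOt.lt_top).ne
  have hFc : ∀ k, IsCompact (F k) := by
    intro k
    obtain ⟨s, hs⟩ := fin_cover μ hPt isOpen_interior (mem_interior_iff_mem_nhds.2 (hW1 k))
      (F := F k) (fun x hx => hx)
    refine (s.isCompact_biUnion (f := fun y => (y * ·) '' W k)
      fun y _ => (hWc k).image (by fun_prop)).of_isClosed_subset (hFcl k) fun x hx => ?_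
    obtain ⟨y, hy, h⟩ := hs x hx
    exact mem_iUnion₂.2 ⟨y, hy, _, interior_subset h, by simp⟩
  have hPI : ∀ x ∈ P, ∃ k, x ∈ interior (F k) := by
    intro x hx
    obtain ⟨k, hk⟩ := exists_subset_nhds_of_isCompact' (V := W) hWa.directed_ge hWc hWcl
      (U := (x * ·) ⁻¹' P) fun n hn => (hP.preimage (by fun_prop)).mem_nhds (hPN x hx n hn)
    refine ⟨k, mem_interior_iff_mem_nhds.2 ?_⟩
    have := (hWc k).eventually_forall_of_forall_eventually (x₀ := x) (P := fun y ω => y * ω ∈ P)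
      fun ω hω => continuous_mul.continuousAt.preimage_mem_nhds (hP.mem_nhds (hk hω))
    exact this.mono fun y hy ω hω => hy ω (interior_subset hω)
  have htend : Tendsto (fun k => μ (P \ interior (F k))) atTop (𝓝 0) := by
    have := tendsto_measure_iInter_atTop (μ := μ) (s := fun k => P \ interior (F k))
      (fun k => (hP.measurableSet.diff isOpen_interior.measurableSet).nullMeasurableSet)
      (fun i j hij => sdiff_subset_sdiff_right (interior_mono (hFm hij)))
      ⟨0, ((measure_mono sdiff_subset).trans_lt hPt.lt_top).ne⟩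
    have e : (⋂ k, P \ interior (F k)) = ∅ := by
      refine eq_empty_of_forall_notMem fun x hx => ?_
      obtain ⟨k, hk⟩ := hPI x (mem_iInter.1 hx 0).1
      exact (mem_iInter.1 hx k).2 hk
    rwa [e, measure_empty] at this
  have h3 : ∀ j, ∃ k, j ≤ k ∧ μ (P \ interior (F k)) < ε (j + 1) := fun j =>
    ((eventually_ge_atTop j).and (htend.eventually (gt_mem_nhds (hε (j + 1))))).exists
  choose k hk1 hk2 using h3
  refine ⟨fun j => Nat.casesOn j (F (k 0)) fun j => F (k (j + 1)) \ interior (F (k j)),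
    fun j => ?_, fun x hx => ?_, fun j => ?_⟩
  · cases j with
    | zero => exact hFc _
    | succ j => exact (hFc _).diff isOpen_interior
  · have hex : ∃ j, x ∈ interior (F (k j)) := by
      obtain ⟨m, hm⟩ := hPI x (hOP (hEO hx))
      exact ⟨m, interior_mono (hFm (hk1 m)) hm⟩
    refine mem_iUnion.2 ⟨Nat.find hex, ?_⟩
    have h1 := Nat.find_spec hex
    have h2 := fun m => Nat.find_min hex (m := m)
    generalize Nat.find hex = j at h1 h2
    cases j with
    | zero => exact interior_subset h1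
    | succ j => exact ⟨interior_subset h1, h2 j (by omega)⟩
  · cases j with
    | zero => exact (measure_mono (hFP _)).trans_lt (hμP.trans_lt hμO)
    | succ j => exact (measure_mono (sdiff_subset_sdiff_left (hFP _))).trans_lt (hk2 j)

lemma small {V : Set G} (hV : IsCompact V) (hne : (interior V).Nonempty) :
    ∃ ε : ℝ≥0∞, 0 < ε ∧ ∀ K, IsCompact K → μ K < ε →
      ∃ f : G → G, PW f ∧ InjOn f K ∧ MapsTo f K V := by
  obtain ⟨C, hC, hC'⟩ := right_bound μ hV
  have hpos : 0 < μ (interior V)⁻¹ := isOpen_interior.inv.measure_pos μ hne.inv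
  obtain ⟨c, hc0, hc⟩ := exists_between hpos
  refine ⟨c / C, ENNReal.div_pos hc0.ne' hC, fun K hK hμ => ?_⟩
  obtain ⟨O, hKO, hO, hμO⟩ := K.exists_isOpen_lt_of_lt _ hμ
  refine pack_compact μ hK hV hO hKO (fun v hv => (hC' v hv O).trans ?_) hc
  exact (mul_le_mul_right hμO.le C).trans ENNReal.mul_div_le

lemma embed {E U : Set G} (h0 : μ E = 0) (hU : IsOpen U) (hne : U.Nonempty) :
    ∃ f : G → G, PW f ∧ InjOn f E ∧ MapsTo f E U := by
  classical
  by_cases hinf : U.Finite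
  · obtain ⟨x, hx⟩ := hne
    have hpos := hU.measure_pos μ ⟨x, hx⟩
    have hs : ∀ y : G, μ {y} = μ {1} := by
      intro y
      rw [← measure_preimage_mul μ y {y}]
      congr 1; ext z; simp
    have h1 : μ {1} ≠ 0 := by
      intro h
      refine hpos.ne' ?_
      rw [← biUnion_of_singleton U, measure_biUnion_null_iff hinf.countable]
      exact fun y _ => (hs y).trans h
    have : E = ∅ := eq_empty_of_forall_notMem fun y hy =>
      h1 ((hs y).symm.trans (measure_mono_null (singleton_subset_iff.2 hy) h0))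
    subst this
    exact ⟨fun x => x, PW.id, injOn_empty _, mapsTo_empty _ _⟩
  · have : Infinite U := Set.infinite_coe_iff.2 hinf
    obtain ⟨D, hD1, hD2, hD3⟩ := exists_seq_infinite_isOpen_pairwise_disjoint U
    have h1 : ∀ j, ∃ V ⊆ Subtype.val '' D j, IsCompact V ∧ (interior V).Nonempty := by
      intro j
      obtain ⟨x, hx⟩ := (hD1 j).nonempty
      obtain ⟨V, h1, h2, h3⟩ := exists_compact_subset
        (hU.isOpenEmbedding_subtypeVal.isOpenMap _ (hD2 j)) ⟨x, hx, rfl⟩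
      exact ⟨V, h3, h1, _, h2⟩
    choose V hV1 hV2 hV3 using h1
    choose ε hε hpack using fun j => small μ (hV2 j) (hV3 j)
    obtain ⟨K, hK1, hK2, hK3⟩ := cover μ h0 ε hε
    choose f hf1 hf2 hf3 using fun j => hpack j (K j) (hK1 j) (hK3 j)
    have hex : ∀ x, ∃ j, x ∈ ⋃ j, K j → x ∈ K j := by
      intro x
      by_cases h : x ∈ ⋃ j, K j
      · obtain ⟨j, hj⟩ := mem_iUnion.1 h; exact ⟨j, fun _ => hj⟩
      · exact ⟨0, fun h' => absurd h' h⟩
    have hc : ∀ x ∈ E, x ∈ K (Nat.find (hex x)) := fun x hx => Nat.find_spec (hex x) (hK2 hx)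
    refine ⟨fun x => f (Nat.find (hex x)) x, PW.select (c := fun x => Nat.find (hex x))
      (fun m => ?_) hf1, fun x hx y hy hxy => ?_, fun x hx => ?_⟩
    · refine measurable_find hex (fun k => ?_) (MeasurableSet.singleton m)
      have : {x | x ∈ ⋃ j, K j → x ∈ K k} = (⋃ j, K j)ᶜ ∪ K k := by
        ext x; simp only [mem_ofPred_eq, mem_union, mem_compl_iff, imp_iff_not_or]
      rw [this]
      exact (MeasurableSet.iUnion fun j => (hK1 j).measurableSet).compl.union (hK1 k).measurableSet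
    · have a := hc x hx
      have b := hc y hy
      simp only at hxy
      generalize Nat.find (hex x) = i at a hxy
      generalize Nat.find (hex y) = j at b hxy
      by_cases hij : i = j
      · subst hij; exact hf2 i a b hxy
      · obtain ⟨p, hp, hp'⟩ := hV1 i (hf3 i a)
        obtain ⟨q, hq, hq'⟩ := hV1 j (hf3 j b)
        obtain rfl : p = q := Subtype.ext (by rw [hp', hq', hxy])
        exact absurd hq (disjoint_left.1 (hD3 hij) hp)
    · obtain ⟨p, -, hp'⟩ := hV1 _ (hf3 _ (hc x hx))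
      show f (Nat.find (hex x)) x ∈ U
      rw [← hp']; exact p.2

end aux

theorem result {G : Type*} [Group G] [TopologicalSpace G] [IsTopologicalGroup G] [T2Space G]
    [LocallyCompactSpace G] [MeasurableSpace G] [BorelSpace G] (μ : Measure G) [μ.IsHaarMeasure]
    [μ.Regular] (E U : Set G) (hE : MeasurableSet E) (h0 : μ E = 0) (hU : IsOpen U)
    (hne : U.Nonempty) :
    ∃ F ⊆ U, ∃ (A B : ℕ → Set G) (g : ℕ → G),
      (∀ i, MeasurableSet (A i)) ∧ (∀ i, MeasurableSet (B i)) ∧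
      Pairwise (fun i j => Disjoint (A i) (A j)) ∧ Pairwise (fun i j => Disjoint (B i) (B j)) ∧
      (⋃ i, A i) = E ∧ (⋃ i, B i) = F ∧ ∀ i, (fun x => g i * x) '' A i = B i := by
  obtain ⟨f, hf, hinj, hmaps⟩ := embed μ h0 hU hne
  obtain ⟨g, hg⟩ := hf.1.exists_eq_range ⟨_, 1, rfl⟩
  let S : ℕ → Set G := fun i => E ∩ {x | f x = g i * x}
  have hS : ∀ i, MeasurableSet (S i) := fun i => hE.inter (hf.2 _)
  have hA : ∀ i, MeasurableSet (disjointed S i) := MeasurableSet.disjointed hS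
  have hU' : (⋃ i, disjointed S i) = E := by
    rw [iUnion_disjointed]
    refine Subset.antisymm (iUnion_subset fun i => inter_subset_left) fun x hx => ?_
    obtain ⟨i, hi⟩ : f x * x⁻¹ ∈ range g := hg ▸ ⟨x, rfl⟩
    exact mem_iUnion.2 ⟨i, hx, by simp [hi]⟩
  refine ⟨f '' E, hmaps.image_subset, disjointed S, fun i => f '' disjointed S i, g, hA,
    fun i => hf.image (hA i), disjoint_disjointed S, fun i j hij => ?_, hU', ?_, fun i => ?_⟩
  · exact (disjoint_disjointed S hij).image hinj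
      (fun x hx => (disjointed_subset S i hx).1) (fun x hx => (disjointed_subset S j hx).1)
  · rw [← image_iUnion, hU']
  · exact image_congr fun x hx => (disjointed_subset S i hx).2.symm

end Pool.Agent.Results.MP_5eb27c_an.Yes
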